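import Mathlib
import Pool.Agent.Results.MP_293d80_gt.CounterexampleUnderCH
import Pool.Agent.Helper292.ForceCH

/-!
# It is consistent that Split(Λ,Λ) is not additive

The continuum hypothesis can be forced, and it gives two sets of reals with the property
Split(Λ,Λ) whose union does not have this property. The forcing language is the one of
`Pool.Agent.Helper292.ForceCH`: a sentence is represented by the set of the conditions which force
it, with the usual clauses for the connectives.
-/

set_option autoImplicit false

open Cardinal Set

namespace Pool.Agent.Results.MP_293d80_gt.ConsistentlyNot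

open Pool.Agent.Results.MP_293d80_gt.CounterexampleUnderCH

/-- (1) Some forcing notion forces, below every condition, that `ω₁` is preserved and that the
continuum hypothesis holds. (2) The continuum hypothesis implies that there are two sets of reals,
both with the property Split(Λ,Λ), whose union does not have this property. -/
theorem result :
    (∃ (P : Type) (_ : Preorder P), Nonempty P ∧ ∀ p : P,
      p ∈ Pool.Agent.Helper292.ForceCH.OmegaOnePreserved P ∧
      p ∈ Pool.Agent.Helper292.ForceCH.CHHolds P) ∧
    ((𝔠 : Cardinal.{0}) = ℵ₁ →
      ∃ X Y : Set ℝ, SplitLL X ∧ SplitLL Y ∧ ¬ SplitLL (X ∪ Y)) := by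
  refine ⟨?_, fun hCH => CounterexampleUnderCH.result hCH⟩
  obtain ⟨P, i, h1, h2⟩ := Pool.Agent.Helper292.ForceCH.exists_forcing
  exact ⟨P, i, h1, fun p => ⟨(h2 p).1, (h2 p).2.2⟩⟩

end Pool.Agent.Results.MP_293d80_gt.ConsistentlyNot
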